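import Mathlib

/-!
# MP_3e6e51_an: a Bowen function which is not Walters modulo weak coboundaries

Disproof of Q1, on every full shift with at least two symbols.
-/

set_option autoImplicit false

open Filter Topology

namespace Pool.Agent.Results.MP_3e6e51_an.BowenNotWalters

variable {A : Type}

/-- the left shift on `A^ℕ` -/
def shift (x : ℕ → A) : ℕ → A := fun i => x (i + 1)

open Classical in
/-- the metric `d(x,y) = 2^{-min {i : x_i ≠ y_i}}` (and `d(x,x) = 0`) -/
noncomputable def d (x y : ℕ → A) : ℝ :=
  if x = y then 0 else (1 / 2) ^ sInf {i : ℕ | x i ≠ y i}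

/-- the Birkhoff sums `S_n f = ∑_{k<n} f ∘ σ^k` -/
noncomputable def S (f : (ℕ → A) → ℝ) (n : ℕ) (x : ℕ → A) : ℝ :=
  ∑ k ∈ Finset.range n, f (shift^[k] x)

/-- Walters functions -/
def IsWalters (f : (ℕ → A) → ℝ) : Prop :=
  ∀ κ : ℝ, 0 < κ → ∃ ε : ℝ, 0 < ε ∧ ∀ n : ℕ, 1 ≤ n → ∀ x y : ℕ → A,
    (∀ k < n, d (shift^[k] x) (shift^[k] y) < ε) → |S f n x - S f n y| < κ

/-- Bowen functions -/
def IsBowen (f : (ℕ → A) → ℝ) : Prop :=
  ∃ M : ℝ, 0 < M ∧ ∃ ε : ℝ, 0 < ε ∧ ∀ n : ℕ, 1 ≤ n → ∀ x y : ℕ → A,
    (∀ k < n, d (shift^[k] x) (shift^[k] y) < ε) → |S f n x - S f n y| ≤ M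

/-- the weak coboundaries: the functions which are uniform limits of coboundaries `q ∘ σ - q`,
`q` continuous -/
def IsWcob [TopologicalSpace A] (f : (ℕ → A) → ℝ) : Prop :=
  ∀ ε : ℝ, 0 < ε → ∃ q : (ℕ → A) → ℝ, Continuous q ∧ ∀ x, |f x - (q (shift x) - q x)| ≤ ε

lemma shift_iter (x : ℕ → A) (k i : ℕ) : (shift^[k] x) i = x (i + k) := by
  induction k generalizing x with
  | zero => rfl
  | succ k ih =>
    rw [Function.iterate_succ_apply, ih]
    simp only [shift]
    congr 1

lemma d_lt_one {x y : ℕ → A} (h : d x y < 1) : x 0 = y 0 := by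
  unfold d at h
  split_ifs at h with hxy
  · rw [hxy]
  · by_contra hne
    have : sInf {i : ℕ | x i ≠ y i} = 0 := by
      apply Nat.sInf_eq_zero.2
      left
      exact hne
    rw [this, pow_zero] at h
    exact lt_irrefl _ h

lemma d_le {x y : ℕ → A} {N : ℕ} (h : ∀ i < N, x i = y i) : d x y ≤ (1 / 2) ^ N := by
  unfold d
  split_ifs with hxy
  · positivity
  · have hne : {i : ℕ | x i ≠ y i}.Nonempty := by
      by_contra hcon
      rw [Set.not_nonempty_iff_eq_empty] at hcon
      apply hxy
      funext i
      by_contra hi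
      have : i ∈ {i : ℕ | x i ≠ y i} := hi
      rw [hcon] at this
      exact this
    have hN : N ≤ sInf {i : ℕ | x i ≠ y i} := by
      by_contra hcon
      push Not at hcon
      exact (Nat.sInf_mem hne) (h _ hcon)
    exact pow_le_pow_of_le_one (by norm_num) (by norm_num) hN

/-- the bounded, slowly oscillating sequence -/
noncomputable def s (n : ℕ) : ℝ := Real.sin (Real.sqrt n)

lemma s_zero : s 0 = 0 := by simp [s]

lemma s_abs (n : ℕ) : |s n| ≤ 1 := Real.abs_sin_le_one _

lemma s_incr (n : ℕ) : |s (n + 1) - s n| ≤ 1 / Real.sqrt (n + 1) := by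
  unfold s
  refine (Real.abs_sin_sub_sin_le _ _).trans ?_
  have h0 : (0 : ℝ) < Real.sqrt (n + 1) := Real.sqrt_pos.2 (by positivity)
  have h1 : Real.sqrt n ≤ Real.sqrt (n + 1) := Real.sqrt_le_sqrt (by linarith)
  have h2 : Real.sqrt n * Real.sqrt n = n := Real.mul_self_sqrt (by positivity)
  have h3 : Real.sqrt ((n : ℝ) + 1) * Real.sqrt (n + 1) = n + 1 := Real.mul_self_sqrt (by positivity)
  have h4 : 0 ≤ Real.sqrt (n : ℝ) := Real.sqrt_nonneg _
  push_cast
  rw [abs_of_nonneg (by linarith), le_div_iff₀ h0]
  nlinarith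

lemma s_not_cauchy (h : CauchySeq s) : False := by
  obtain ⟨L, hL⟩ := cauchySeq_tendsto_of_complete h
  have h1 : Tendsto (fun n : ℕ => Real.sin (n : ℝ)) atTop (𝓝 L) := by
    have h2 : Tendsto (fun n : ℕ => n ^ 2) atTop atTop := tendsto_pow_atTop (by norm_num)
    refine (hL.comp h2).congr fun n => ?_
    simp only [Function.comp, s]
    push_cast
    rw [Real.sqrt_sq (by positivity)]
  have h2 : Tendsto (fun n : ℕ => Real.sin ((n : ℝ) + 1)) atTop (𝓝 L) := by
    have := h1.comp (tendsto_add_atTop_nat 1)
    refine this.congr fun n => ?_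
    simp only [Function.comp]
    push_cast
    rfl
  have hs1 : 0 < Real.sin 1 := Real.sin_pos_of_pos_of_lt_pi one_pos (by linarith [Real.pi_gt_three])
  have h3 : Tendsto (fun n : ℕ => Real.cos (n : ℝ)) atTop
      (𝓝 ((L - L * Real.cos 1) / Real.sin 1)) := by
    refine ((h2.sub (h1.mul_const (Real.cos 1))).div_const (Real.sin 1)).congr fun n => ?_
    rw [Real.sin_add]
    field_simp
    ring
  set C := (L - L * Real.cos 1) / Real.sin 1 with hC
  have h4 : Tendsto (fun n : ℕ => Real.cos ((n : ℝ) + 1)) atTop (𝓝 C) := by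
    have := h3.comp (tendsto_add_atTop_nat 1)
    refine this.congr fun n => ?_
    simp only [Function.comp]
    push_cast
    rfl
  have h5 : C = C * Real.cos 1 - L * Real.sin 1 := by
    refine tendsto_nhds_unique h4 (((h3.mul_const _).sub (h1.mul_const _)).congr fun n => ?_)
    rw [Real.cos_add]
  have h6 : L ^ 2 + C ^ 2 = 1 := by
    refine tendsto_nhds_unique ((h1.pow 2).add (h3.pow 2)) ?_
    simp only [Real.sin_sq_add_cos_sq]
    exact tendsto_const_nhds
  have h7 : C * Real.sin 1 = L - L * Real.cos 1 := by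
    rw [hC]; field_simp
  have h8 : Real.cos 1 < 1 := by
    have := Real.sin_sq_add_cos_sq 1
    nlinarith
  have h9 : (L ^ 2 + C ^ 2) * (1 - Real.cos 1) = 0 := by
    have e1 : C * (1 - Real.cos 1) = -(L * Real.sin 1) := by linarith
    have e2 : L * (1 - Real.cos 1) = C * Real.sin 1 := by linarith
    calc (L ^ 2 + C ^ 2) * (1 - Real.cos 1)
        = L * (L * (1 - Real.cos 1)) + C * (C * (1 - Real.cos 1)) := by ring
      _ = 0 := by rw [e1, e2]; ring
  rw [h6] at h9
  linarith

section
variable (a : A)

open Classical in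
/-- `u(x) = s_n` if `x` begins with exactly `n` symbols `a`, and `0` for `x = aaa...` -/
noncomputable def u (x : ℕ → A) : ℝ :=
  if h : ∃ i, x i ≠ a then s (Nat.find h) else 0

open Classical in
/-- the potential: `φ(x) = u(σ x) - u(x)` if `x_0 = a`, and `0` otherwise -/
noncomputable def phi (x : ℕ → A) : ℝ := if x 0 = a then u a (shift x) - u a x else 0

lemma u_abs (x : ℕ → A) : |u a x| ≤ 1 := by
  unfold u
  split_ifs with h
  · exact s_abs _
  · simp

lemma u_eq {x : ℕ → A} {n : ℕ} (h : ∀ i < n, x i = a) (hn : x n ≠ a) : u a x = s n := by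
  classical
  have hex : ∃ i, x i ≠ a := ⟨n, hn⟩
  unfold u
  rw [dif_pos hex]
  congr 1
  rw [Nat.find_eq_iff]
  exact ⟨hn, fun m hm => by simpa using h m hm⟩

lemma u_const {x : ℕ → A} (h : ∀ i, x i = a) : u a x = 0 := by
  unfold u
  rw [dif_neg]
  push Not
  exact h

lemma phi_succ {x : ℕ → A} {n : ℕ} (h : ∀ i < n + 1, x i = a) (hn : x (n + 1) ≠ a) :
    phi a x = s n - s (n + 1) := by
  unfold phi
  rw [if_pos (h 0 (Nat.succ_pos n)), u_eq a h hn, u_eq a (n := n) (fun i hi => ?_) hn]
  exact h (i + 1) (by omega)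

lemma phi_zero {x : ℕ → A} (h : x 0 ≠ a) : phi a x = 0 := by
  unfold phi
  rw [if_neg h]

lemma phi_const {x : ℕ → A} (h : ∀ i, x i = a) : phi a x = 0 := by
  unfold phi
  have h1 : u a (shift x) = 0 := u_const a (fun i => h (i + 1))
  rw [if_pos (h 0), u_const a h, h1, sub_zero]

lemma phi_cases (x : ℕ → A) (N : ℕ) (h : ∀ i < N + 1, x i = a) :
    |phi a x| ≤ 1 / Real.sqrt (N + 1) := by
  classical
  by_cases hex : ∃ i, x i ≠ a
  · have h1 := Nat.find_spec hex
    have h2 : ∀ i < Nat.find hex, x i = a := fun i hi => by simpa using Nat.find_min hex hi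
    have h3 : N + 1 ≤ Nat.find hex := by
      by_contra hcon
      exact h1 (h _ (by omega))
    obtain ⟨m, hm⟩ : ∃ m, Nat.find hex = m + 1 := ⟨Nat.find hex - 1, by omega⟩
    rw [hm] at h1 h2
    rw [phi_succ a h2 h1, abs_sub_comm]
    refine (s_incr m).trans ?_
    apply one_div_le_one_div_of_le (Real.sqrt_pos.2 (by positivity))
    apply Real.sqrt_le_sqrt
    have : (N : ℝ) ≤ m := by exact_mod_cast (by omega : N ≤ m)
    linarith
  · push Not at hex
    rw [phi_const a hex, abs_zero]
    positivity

lemma phi_local {x y : ℕ → A} {n : ℕ} (h : ∀ i < n, x i = a) (hn : x n ≠ a)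
    (hy : ∀ i ≤ n, y i = x i) : phi a y = phi a x := by
  rcases n with _ | n
  · rw [phi_zero a hn, phi_zero a (by rw [hy 0 le_rfl]; exact hn)]
  · have h1 : ∀ i < n + 1, y i = a := fun i hi => by rw [hy i (by omega)]; exact h i hi
    have h2 : y (n + 1) ≠ a := by rw [hy _ le_rfl]; exact hn
    rw [phi_succ a h hn, phi_succ a h1 h2]

lemma phi_continuous [TopologicalSpace A] [DiscreteTopology A] : Continuous (phi a) := by
  classical
  rw [continuous_iff_continuousAt]
  intro x
  have hnhds : ∀ n : ℕ, {y : ℕ → A | ∀ i ≤ n, y i = x i} ∈ 𝓝 x := by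
    intro n
    have : {y : ℕ → A | ∀ i ≤ n, y i = x i} = ⋂ i ∈ Finset.range (n + 1), {y | y i = x i} := by
      ext y
      simp only [Set.mem_ofPred_eq, Finset.mem_range, Set.mem_iInter]
      exact ⟨fun h i hi => h i (by omega), fun h i hi => h i (by omega)⟩
    rw [this]
    refine (Filter.biInter_finset_mem _).2 fun i _ => ?_
    exact ((isOpen_discrete ({x i} : Set A)).preimage
      (continuous_apply (A := fun _ : ℕ => A) i)).mem_nhds rfl
  by_cases hex : ∃ i, x i ≠ a
  · have h1 := Nat.find_spec hex
    have h2 : ∀ i < Nat.find hex, x i = a := fun i hi => by simpa using Nat.find_min hex hi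
    apply ContinuousAt.congr (f := fun _ => phi a x) continuousAt_const
    filter_upwards [hnhds (Nat.find hex)] with y hy
    exact (phi_local a h2 h1 hy).symm
  · push Not at hex
    rw [Metric.continuousAt_iff']
    intro ε hε
    obtain ⟨N, hN⟩ := exists_nat_gt (1 / ε ^ 2)
    filter_upwards [hnhds N] with y hy
    rw [phi_const a hex, Real.dist_eq, sub_zero]
    refine (phi_cases a y N fun i hi => ?_).trans_lt ?_
    · rw [hy i (by omega), hex]
    · rw [div_lt_iff₀ (Real.sqrt_pos.2 (by positivity))]
      have h1 : 1 / ε < Real.sqrt (N + 1) := by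
        apply Real.lt_sqrt_of_sq_lt
        rw [one_div, inv_pow, ← one_div]
        linarith
      rw [div_lt_iff₀ hε] at h1
      linarith

lemma S_add (f : (ℕ → A) → ℝ) (m n : ℕ) (x : ℕ → A) :
    S f (m + n) x = S f m x + S f n (shift^[m] x) := by
  unfold S
  rw [Finset.sum_range_add]
  congr 1
  apply Finset.sum_congr rfl
  intro k _
  rw [← Function.iterate_add_apply, add_comm]

/-- the sum over a run of the symbol `a` telescopes -/
lemma S_run {x : ℕ → A} {m : ℕ} (h : ∀ i < m, x i = a) :
    S (phi a) m x = u a (shift^[m] x) - u a x := by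
  induction m with
  | zero => simp [S]
  | succ m ih =>
    rw [S_add, ih fun i hi => h i (by omega)]
    unfold S
    rw [Finset.sum_range_one, Function.iterate_zero, id]
    have : (shift^[m] x) 0 = a := by rw [shift_iter, zero_add]; exact h m (by omega)
    unfold phi
    rw [if_pos this, Function.iterate_succ_apply']
    ring

lemma bowen_aux (n : ℕ) : ∀ x y : ℕ → A, (∀ i < n, x i = y i) →
    |S (phi a) n x - S (phi a) n y| ≤ 4 := by
  classical
  induction n using Nat.strong_induction_on with
  | _ n ih =>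
  intro x y hxy
  by_cases hall : ∀ i < n, x i = a
  · rw [S_run a hall, S_run a (fun i hi => by rw [← hxy i hi]; exact hall i hi)]
    have h1 := abs_le.1 (u_abs a (shift^[n] x))
    have h2 := abs_le.1 (u_abs a x)
    have h3 := abs_le.1 (u_abs a (shift^[n] y))
    have h4 := abs_le.1 (u_abs a y)
    rw [abs_le]
    constructor <;> linarith
  · push Not at hall
    have h1 := Nat.find_spec hall
    have h2 : ∀ i < Nat.find hall, x i = a := by
      intro i hi
      by_contra hcon
      exact Nat.find_min hall hi ⟨hi.trans h1.1, hcon⟩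
    set j := Nat.find hall
    obtain ⟨m, hm⟩ : ∃ m, n = (j + 1) + m := ⟨n - (j + 1), by omega⟩
    have key : ∀ z : ℕ → A, (∀ i < j, z i = a) → z j ≠ a →
        S (phi a) (j + 1) z = s 0 - s j := by
      intro z hz hzj
      rw [S_add, S_run a hz]
      unfold S
      rw [Finset.sum_range_one, Function.iterate_zero, id]
      have h3 : (shift^[j] z) 0 ≠ a := by rw [shift_iter, zero_add]; exact hzj
      rw [phi_zero a h3, u_eq a (n := 0) (fun i hi => absurd hi (by omega)) h3,
        u_eq a hz hzj, add_zero]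
    rw [hm, S_add _ (j + 1) m, S_add _ (j + 1) m, key x h2 h1.2,
      key y (fun i hi => by rw [← hxy i (by omega)]; exact h2 i hi)
        (by rw [← hxy j h1.1]; exact h1.2)]
    have h5 := ih m (by omega) (shift^[j + 1] x) (shift^[j + 1] y) (fun i hi => by
      rw [shift_iter, shift_iter]
      exact hxy _ (by omega))
    rwa [add_sub_add_left_eq_sub]

lemma phi_bowen : IsBowen (phi a) := by
  refine ⟨4, by norm_num, 1, one_pos, fun n _ x y h => bowen_aux a n x y fun i hi => ?_⟩
  have := d_lt_one (h i hi)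
  rwa [shift_iter, shift_iter, zero_add] at this

end

/-- the periodic points `(b a^m)^∞` -/
def per (a b : A) (m : ℕ) (i : ℕ) : A := if i % (m + 1) = 0 then b else a

lemma per_periodic (a b : A) (m : ℕ) : shift^[m + 1] (per a b m) = per a b m := by
  funext i
  rw [shift_iter]
  unfold per
  rw [Nat.add_mod_right]

/-- weak coboundaries have zero sums along periodic orbits -/
lemma wcob_periodic [TopologicalSpace A] {f : (ℕ → A) → ℝ} (hf : IsWcob f) {p : ℕ}
    {x : ℕ → A} (hx : shift^[p] x = x) : S f p x = 0 := by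
  by_contra hne
  have hpos : 0 < |S f p x| := abs_pos.2 hne
  obtain ⟨q, -, hq⟩ := hf (|S f p x| / (p + 1)) (by positivity)
  have h1 : ∀ n : ℕ, |S f n x - (q (shift^[n] x) - q x)| ≤ n * (|S f p x| / (p + 1)) := by
    intro n
    induction n with
    | zero => simp [S]
    | succ n ih =>
      have e : S f (n + 1) x = S f n x + f (shift^[n] x) := by
        unfold S
        rw [Finset.sum_range_succ]
      have h2 := hq (shift^[n] x)
      rw [e, Function.iterate_succ_apply']
      push_cast
      rw [abs_le] at ih h2 ⊢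
      constructor <;> linarith
  have h2 := h1 p
  rw [hx, sub_self, sub_zero] at h2
  have h3 : (p : ℝ) * (|S f p x| / (p + 1)) < |S f p x| := by
    rw [← mul_div_assoc, div_lt_iff₀ (by positivity)]
    nlinarith
  linarith

/-- For every finite alphabet with at least two symbols there is a continuous Bowen function `φ`
on the full shift such that `φ - h` is not a weak coboundary for any continuous Walters
function `h`. -/
theorem result (A : Type) [Fintype A] [Nontrivial A] [TopologicalSpace A] [DiscreteTopology A] :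
    ∃ φ : (ℕ → A) → ℝ, Continuous φ ∧ IsBowen φ ∧
      ∀ h : (ℕ → A) → ℝ, Continuous h → IsWalters h → ¬ IsWcob (fun x => φ x - h x) := by
  obtain ⟨a, b, hab⟩ := exists_pair_ne A
  refine ⟨phi a, phi_continuous a, phi_bowen a, fun h _ hh hw => ?_⟩
  -- sums along periodic orbits agree
  have hS : ∀ (p : ℕ) (x : ℕ → A), shift^[p] x = x → S (phi a) p x = S h p x := by
    intro p x hx
    have h1 := wcob_periodic hw hx
    have h2 : S (fun x => phi a x - h x) p x = S (phi a) p x - S h p x := by
      unfold S
      rw [← Finset.sum_sub_distrib]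
    rw [h2] at h1
    linarith
  -- the sum of `φ` along the orbit of `(b a^m)^∞`
  have hphi : ∀ m : ℕ, S (phi a) (m + 1) (per a b m) = - s m := by
    intro m
    have h0 : (per a b m) 0 ≠ a := by simp [per, hab.symm]
    have hrun : ∀ i < m, (shift^[1] (per a b m)) i = a := by
      intro i hi
      rw [shift_iter]
      unfold per
      rw [Nat.mod_eq_of_lt (by omega), if_neg (by omega)]
    have hend : (shift^[1] (per a b m)) m ≠ a := by
      rw [shift_iter]
      unfold per
      rw [Nat.mod_self, if_pos rfl]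
      exact hab.symm
    rw [add_comm m 1, S_add, S_run a hrun, u_eq a hrun hend, ← Function.iterate_add_apply,
      per_periodic, u_eq a (n := 0) (fun i hi => absurd hi (by omega)) h0, s_zero]
    unfold S
    rw [Finset.sum_range_one, Function.iterate_zero, id, phi_zero a h0]
    ring
  -- the fixed point
  have hfix : ∀ n : ℕ, S h n (fun _ => a) = 0 := by
    have h1 : shift^[1] (fun _ : ℕ => a) = fun _ => a := rfl
    have h2 := hS 1 _ h1
    have h3 : ∀ n : ℕ, shift^[n] (fun _ : ℕ => a) = fun _ => a := by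
      intro n
      funext i
      rw [shift_iter]
    have h4 : h (fun _ => a) = 0 := by
      have : S (phi a) 1 (fun _ => a) = 0 := by
        unfold S
        rw [Finset.sum_range_one, Function.iterate_zero, id, phi_const a (fun _ => rfl)]
      rw [this] at h2
      unfold S at h2
      rw [Finset.sum_range_one, Function.iterate_zero, id] at h2
      exact h2.symm
    intro n
    unfold S
    apply Finset.sum_eq_zero
    intro k _
    rw [h3, h4]
  apply s_not_cauchy
  rw [Metric.cauchySeq_iff']
  intro κ hκ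
  obtain ⟨ε, hε, hW⟩ := hh (κ / 3) (by positivity)
  obtain ⟨N, hN⟩ := exists_pow_lt_of_lt_one hε (by norm_num : (1 / 2 : ℝ) < 1)
  have hagree : ∀ x y : ℕ → A, (∀ i < N, x i = y i) → d x y < ε := fun x y hxy =>
    (d_le hxy).trans_lt hN
  refine ⟨N + 1, fun m' hm' => ?_⟩
  obtain ⟨r, hr⟩ : ∃ r, m' = r + (N + 1) := ⟨m' - (N + 1), by omega⟩
  set m := N + 1 with hm
  rw [Real.dist_eq]
  have e1 : s m' = - S h (m' + 1) (per a b m') := by rw [← hS _ _ (per_periodic a b m'), hphi]; ring
  have e2 : s m = - S h (m + 1) (per a b m) := by rw [← hS _ _ (per_periodic a b m), hphi]; ring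
  have e3 : S h (m' + 1) (per a b m') = S h 1 (per a b m') + S h r (shift^[1] (per a b m')) +
      S h m (shift^[r + 1] (per a b m')) := by
    rw [show m' + 1 = 1 + (r + m) by omega, S_add, S_add, ← Function.iterate_add_apply]
    ring
  have e4 : S h (m + 1) (per a b m) = S h 1 (per a b m) + S h m (shift^[1] (per a b m)) := by
    rw [show m + 1 = 1 + m by omega, S_add]
  -- first piece
  have f1 : |S h 1 (per a b m') - S h 1 (per a b m)| < κ / 3 := by
    apply hW 1 le_rfl
    intro k hk
    apply hagree
    intro i hi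
    rw [shift_iter, shift_iter]
    have hk0 : k = 0 := by omega
    subst hk0
    unfold per
    rw [Nat.mod_eq_of_lt (by omega : i + 0 < m' + 1), Nat.mod_eq_of_lt (by omega : i + 0 < m + 1)]
  -- second piece
  have f2 : |S h r (shift^[1] (per a b m'))| < κ / 3 := by
    rcases Nat.eq_zero_or_pos r with hr0 | hr0
    · rw [hr0]
      simp only [S, Finset.range_zero, Finset.sum_empty, abs_zero]
      positivity
    · have := hW r hr0 (shift^[1] (per a b m')) (fun _ => a) (fun k hk => by
        apply hagree
        intro i hi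
        rw [shift_iter, shift_iter, shift_iter]
        unfold per
        rw [Nat.mod_eq_of_lt (by omega), if_neg (by omega)])
      rwa [hfix, sub_zero] at this
  -- third piece
  have f3 : |S h m (shift^[r + 1] (per a b m')) - S h m (shift^[1] (per a b m))| < κ / 3 := by
    apply hW m (by omega)
    intro k hk
    apply hagree
    intro i hi
    rw [shift_iter, shift_iter, shift_iter, shift_iter]
    unfold per
    rcases lt_trichotomy (i + k) m with hlt | heq | hgt
    · rw [Nat.mod_eq_of_lt (by omega), Nat.mod_eq_of_lt (by omega), if_neg (by omega),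
        if_neg (by omega)]
    · rw [show i + k + (r + 1) = m' + 1 by omega, show i + k + 1 = m + 1 by omega, Nat.mod_self,
        Nat.mod_self]
    · have g1 : (i + k + (r + 1)) % (m' + 1) = i + k - m := by
        rw [show i + k + (r + 1) = (i + k - m) + (m' + 1) by omega, Nat.add_mod_right,
          Nat.mod_eq_of_lt (by omega)]
      have g2 : (i + k + 1) % (m + 1) = i + k - m := by
        rw [show i + k + 1 = (i + k - m) + (m + 1) by omega, Nat.add_mod_right,
          Nat.mod_eq_of_lt (by omega)]
      rw [g1, g2]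
  rw [e1, e2, e3, e4]
  rw [abs_lt] at f1 f2 f3 ⊢
  constructor <;> linarith

end Pool.Agent.Results.MP_3e6e51_an.BowenNotWalters
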